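import Pool.Agent.H529R3.Gap.Alt

/-!
# `NEXP = EXPSPACE` with polynomial exponents, but not with linear exponents

If `NE^A = ESPACE^A` (linear exponents), then, by padding, `NEXP^A = EXPSPACE^A` (polynomial
exponents). How often does the conclusion hold without the hypothesis? For every gauge `f`, the set
of the oracles `A` with `NEXP^A = EXPSPACE^A` and `NE^A ≠ ESPACE^A` is a null set for `f` if and
only if for every `ε > 0` there are infinitely many `N` with `f N ≤ 2 ^ ((log log N) ^ ε)`. The same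
holds for the oracles with `EXPSPACE^A` in the exponential hierarchy with polynomial exponents, but
`ESPACE^A` not in the exponential hierarchy with linear exponents.
-/

set_option autoImplicit false

namespace Pool.Agent.Results.MP_d5876b_lc.GaugeExpGap

open Pool.Agent.NPC Pool.Agent.H620R2.Gauge Pool.Agent.H622R2.Exp

theorem result (f : ℕ → ℝ) :
    (∀ O : Set Oracle,
      (∀ A : Oracle, (∀ L, InSpace Pol A L → InTime Pol A L) →
        (∃ L, InSpace Lin A L ∧ ¬ InAlt Lin A L) → A ∈ O) →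
      (∀ A ∈ O, ∀ L, InSpace Pol A L → InAlt Pol A L) →
      (Null f O ↔ ∀ ε : ℝ, 0 < ε → ∃ᶠ N : ℕ in Filter.atTop,
        f N ≤ 2 ^ (Real.logb 2 (Real.logb 2 N)) ^ ε)) ∧
    (Null f {A : Oracle | (∀ L, InNTime Pol A L ↔ InSpace Pol A L) ∧
        ¬ ∀ L, InNTime Lin A L ↔ InSpace Lin A L} ↔
      ∀ ε : ℝ, 0 < ε → ∃ᶠ N : ℕ in Filter.atTop,
        f N ≤ 2 ^ (Real.logb 2 (Real.logb 2 N)) ^ ε) ∧
    (Null f {A : Oracle | (∀ L, InSpace Pol A L → InAlt Pol A L) ∧
        ¬ ∀ L, InSpace Lin A L → InAlt Lin A L} ↔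
      ∀ ε : ℝ, 0 < ε → ∃ᶠ N : ℕ in Filter.atTop,
        f N ≤ 2 ^ (Real.logb 2 (Real.logb 2 N)) ^ ε) := by
  refine ⟨fun O => H529R3.Gap.gap_alt f O, H529R3.Gap.gap_alt f _ ?_ fun A hA L hL =>
    ((hA.1 L).2 hL).isAlt, H529R3.Gap.gap_alt f _ ?_ fun A hA => hA.1⟩
  · rintro A hA ⟨L, hL, hL'⟩
    exact ⟨fun L => ⟨fun h => h.isSpace good_Pol, fun h => (hA L h).isNTime⟩,
      fun h => hL' ((h L).2 hL).isAlt⟩
  · rintro A hA ⟨L, hL, hL'⟩
    exact ⟨fun L h => (hA L h).isNTime.isAlt, fun h => hL' (h L hL)⟩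

end Pool.Agent.Results.MP_d5876b_lc.GaugeExpGap
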