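import Pool.Agent.H249R3.Gau.Alt2

set_option autoImplicit false

/-!
# How many oracles collapse `NE` and `ESPACE`?

For every gauge `f`, the set of the oracles relative to which `NE = ESPACE` (linear exponents) is a
null set for `f` if and only if for every `ε > 0` there are infinitely many `N` with
`f N ≤ (log N) ^ ε`. The same holds for every set of oracles between the set of the oracles with
`ESPACE = E` and the set of the oracles with `ESPACE` contained in the exponential hierarchy. The
set of the oracles with `NE = coNE` and `ESPACE` not contained in the exponential hierarchy is much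
larger: it is null if and only if for every `ε > 0` there are infinitely many `N` with
`f N ≤ ε log log N`.
-/

namespace Pool.Agent.Results.MP_d5876b_lc.GaugeThreshold

open Pool.Agent.NPC Pool.Agent.H620R2.Gauge Pool.Agent.H622R2.Exp

theorem result (f : ℕ → ℝ) :
    (∀ O : Set Oracle,
      (∀ A : Oracle, (∀ L, InSpace Lin A L → InTime Lin A L) → A ∈ O) →
      (∀ A ∈ O, ∀ L, InSpace Lin A L → InAlt Lin A L) →
      (Null f O ↔
        ∀ ε : ℝ, 0 < ε → ∃ᶠ N : ℕ in Filter.atTop, f N ≤ (Real.logb 2 N) ^ ε)) ∧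
    (Null f {A : Oracle | ∀ L, InNTime Lin A L ↔ InSpace Lin A L} ↔
      ∀ ε : ℝ, 0 < ε → ∃ᶠ N : ℕ in Filter.atTop, f N ≤ (Real.logb 2 N) ^ ε) ∧
    (Null f {A : Oracle | (∀ L, InNTime Lin A L ↔ InNTime Lin A Lᶜ) ∧
        ¬ ∀ L, InSpace Lin A L → InAlt Lin A L} ↔
      ∀ ε : ℝ, 0 < ε → ∃ᶠ N : ℕ in Filter.atTop,
        f N ≤ ε * Real.logb 2 (Real.logb 2 N)) := by
  refine ⟨Pool.Agent.H249R3.Gau.resAltE f, Pool.Agent.H249R3.Gau.resAltE f _ ?_ ?_,
    Pool.Agent.H249R3.Gau.resCo f⟩
  · intro A hA L
    exact ⟨fun h => h.isSpace good_Lin, fun h => (hA L h).isNTime⟩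
  · intro A hA L hL
    exact ((hA L).2 hL).isAlt

end Pool.Agent.Results.MP_d5876b_lc.GaugeThreshold
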